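import Mathlib

/-!
Strong odd colourings of hypergraphs of bounded degree: the strong odd chromatic number of
finite hypergraphs of maximum degree at most four is unbounded (shift graph construction).
-/

namespace Pool.Agent.Results.MP_368cee_co.Unbounded

/-- A colouring of the vertices is strong odd for the set `E` of hyperedges if every colour
occurs on every hyperedge either not at all or an odd number of times. -/
def StrongOdd {V : Type} [DecidableEq V] (E : Finset (Finset V)) {t : ℕ} (φ : V → Fin t) : Prop :=
  ∀ e ∈ E, ∀ i : Fin t,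
    (e.filter (fun v => φ v = i)).card = 0 ∨ Odd (e.filter (fun v => φ v = i)).card

/-- The degree of a vertex: the number of hyperedges containing it. -/
def degree {V : Type} [DecidableEq V] (E : Finset (Finset V)) (v : V) : ℕ :=
  (E.filter (fun e => v ∈ e)).card

/-- The strong odd chromatic number: the least `t` for which there is a strong odd colouring
with colours `Fin t`. -/
noncomputable def chiSO {V : Type} [DecidableEq V] (E : Finset (Finset V)) : ℕ :=
  sInf {t : ℕ | ∃ φ : V → Fin t, StrongOdd E φ}

/-- arcs leaving `j` -/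
def outs (n : ℕ) (j : Fin n) : Finset (Fin n × Fin n) :=
  Finset.univ.filter (fun x => x.1 < x.2 ∧ x.1 = j)

/-- arcs entering `j` -/
def ins (n : ℕ) (j : Fin n) : Finset (Fin n × Fin n) :=
  Finset.univ.filter (fun x => x.1 < x.2 ∧ x.2 = j)

/-- the hyperedges -/
def edges (n : ℕ) : Finset (Finset (Fin n × Fin n)) :=
  Finset.univ.biUnion (fun j => {outs n j, ins n j, outs n j ∪ ins n j})

lemma disj (n : ℕ) (j : Fin n) : Disjoint (outs n j) (ins n j) := by
  rw [Finset.disjoint_left]
  intro x hx hy
  simp only [outs, ins, Finset.mem_filter, Finset.mem_univ, true_and] at hx hy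
  have h := hx.1
  rw [hx.2, hy.2] at h
  exact lt_irrefl _ h

lemma degree_le (n : ℕ) (x : Fin n × Fin n) : degree (edges n) x ≤ 4 := by
  unfold degree
  have hsub : (edges n).filter (fun e => x ∈ e) ⊆
      {outs n x.1, outs n x.1 ∪ ins n x.1, ins n x.2, outs n x.2 ∪ ins n x.2} := by
    intro e he
    rw [Finset.mem_filter] at he
    obtain ⟨he, hx⟩ := he
    simp only [edges, Finset.mem_biUnion, Finset.mem_univ, true_and, Finset.mem_insert,
      Finset.mem_singleton] at he
    obtain ⟨j, hj⟩ := he
    simp only [Finset.mem_insert, Finset.mem_singleton]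
    rcases hj with rfl | rfl | rfl
    · simp only [outs, Finset.mem_filter, Finset.mem_univ, true_and] at hx
      left; rw [hx.2]
    · simp only [ins, Finset.mem_filter, Finset.mem_univ, true_and] at hx
      right; right; left; rw [hx.2]
    · rw [Finset.mem_union] at hx
      rcases hx with hx | hx
      · simp only [outs, Finset.mem_filter, Finset.mem_univ, true_and] at hx
        right; left; rw [hx.2]
      · simp only [ins, Finset.mem_filter, Finset.mem_univ, true_and] at hx
        right; right; right; rw [hx.2]
  refine (Finset.card_le_card hsub).trans ?_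
  exact Finset.card_le_four

/-- A colour occurring on an arc entering `j` does not occur on an arc leaving `j`. -/
lemma sep {n t : ℕ} (φ : Fin n × Fin n → Fin t) (h : StrongOdd (edges n) φ)
    (i j k : Fin n) (hij : i < j) (hjk : j < k) : φ (i, j) ≠ φ (j, k) := by
  intro heq
  set c := φ (i, j) with hc
  have mem : ∀ e ∈ ({outs n j, ins n j, outs n j ∪ ins n j} : Finset (Finset (Fin n × Fin n))),
      e ∈ edges n := by
    intro e he
    simp only [edges, Finset.mem_biUnion, Finset.mem_univ, true_and]
    exact ⟨j, he⟩
  have h1 := h (outs n j) (mem _ (by simp)) c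
  have h2 := h (ins n j) (mem _ (by simp)) c
  have h3 := h (outs n j ∪ ins n j) (mem _ (by simp)) c
  have p1 : (j, k) ∈ (outs n j).filter (fun v => φ v = c) := by
    simp [outs, hjk, heq]
  have p2 : (i, j) ∈ (ins n j).filter (fun v => φ v = c) := by
    simp [ins, hij, hc]
  have q1 : ((outs n j).filter (fun v => φ v = c)).card ≠ 0 := by
    rw [Finset.card_ne_zero]; exact ⟨_, p1⟩
  have q2 : ((ins n j).filter (fun v => φ v = c)).card ≠ 0 := by
    rw [Finset.card_ne_zero]; exact ⟨_, p2⟩
  have hcard : ((outs n j ∪ ins n j).filter (fun v => φ v = c)).card =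
      ((outs n j).filter (fun v => φ v = c)).card +
        ((ins n j).filter (fun v => φ v = c)).card := by
    rw [Finset.filter_union, Finset.card_union_of_disjoint]
    exact Finset.disjoint_filter_filter (disj n j)
  have o1 : Odd ((outs n j).filter (fun v => φ v = c)).card := h1.resolve_left q1
  have o2 : Odd ((ins n j).filter (fun v => φ v = c)).card := h2.resolve_left q2
  rw [hcard] at h3
  rcases h3 with h3 | h3
  · omega
  · exact (Nat.not_odd_iff_even.mpr (o1.add_odd o2)) h3

/-- The shift graph bound: a strong odd colouring with `t` colours forces `n ≤ 2 ^ t`. -/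
lemma bound {n t : ℕ} (φ : Fin n × Fin n → Fin t) (h : StrongOdd (edges n) φ) : n ≤ 2 ^ t := by
  let S : Fin n → Finset (Fin t) := fun j => (outs n j).image φ
  have hS : Function.Injective S := by
    have key : ∀ i j : Fin n, i < j → S i ≠ S j := by
      intro i j hij heq
      have hm : φ (i, j) ∈ S i := by
        refine Finset.mem_image_of_mem φ ?_
        simp [outs, hij]
      rw [heq] at hm
      obtain ⟨x, hx, hxe⟩ := Finset.mem_image.mp hm
      simp only [outs, Finset.mem_filter, Finset.mem_univ, true_and] at hx
      obtain ⟨hlt, hx1⟩ := hx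
      have hx' : x = (j, x.2) := by rw [← hx1]
      rw [hx1] at hlt
      rw [hx'] at hxe
      exact sep φ h i j x.2 hij hlt hxe.symm
    intro i j heq
    rcases lt_trichotomy i j with hlt | rfl | hlt
    · exact absurd heq (key i j hlt)
    · rfl
    · exact absurd heq.symm (key j i hlt)
  have := Fintype.card_le_of_injective S hS
  simpa using this

/-- The strong odd chromatic number of hypergraphs of maximum degree at most `4` is
unbounded. -/
theorem result : ∀ c : ℕ, ∃ (V : Type) (_ : Fintype V) (_ : DecidableEq V)
    (E : Finset (Finset V)), (∀ v : V, degree E v ≤ 4) ∧ c < chiSO E := by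
  intro c
  refine ⟨Fin (2 ^ c + 1) × Fin (2 ^ c + 1), inferInstance, inferInstance, edges (2 ^ c + 1),
    degree_le _, ?_⟩
  by_contra hle
  rw [not_lt] at hle
  have hne : {t : ℕ | ∃ φ : Fin (2 ^ c + 1) × Fin (2 ^ c + 1) → Fin t,
      StrongOdd (edges (2 ^ c + 1)) φ}.Nonempty := by
    refine ⟨Fintype.card (Fin (2 ^ c + 1) × Fin (2 ^ c + 1)), Fintype.equivFin _, ?_⟩
    intro e _ i
    have hc1 : (e.filter (fun v => (Fintype.equivFin
        (Fin (2 ^ c + 1) × Fin (2 ^ c + 1))) v = i)).card ≤ 1 := by
      rw [Finset.card_le_one]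
      intro a ha b hb
      rw [Finset.mem_filter] at ha hb
      exact (Fintype.equivFin _).injective (ha.2.trans hb.2.symm)
    rcases Nat.eq_zero_or_pos (e.filter (fun v => (Fintype.equivFin
        (Fin (2 ^ c + 1) × Fin (2 ^ c + 1))) v = i)).card with h0 | h0
    · left; exact h0
    · right
      rw [show (e.filter (fun v => (Fintype.equivFin
        (Fin (2 ^ c + 1) × Fin (2 ^ c + 1))) v = i)).card = 1 by omega]
      exact odd_one
  obtain ⟨φ, hφ⟩ := Nat.sInf_mem hne
  have hb := bound φ hφ
  have hle' : sInf {t : ℕ | ∃ φ : Fin (2 ^ c + 1) × Fin (2 ^ c + 1) → Fin t,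
      StrongOdd (edges (2 ^ c + 1)) φ} ≤ c := hle
  have := Nat.pow_le_pow_right (show 0 < 2 by norm_num) hle'
  omega

end Pool.Agent.Results.MP_368cee_co.Unbounded
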